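import Pool.Agent.H57.UGB.Defs

/-!
# Homogenisation of functions of the coefficients and the point
-/

set_option autoImplicit false

open MvPolynomial

namespace Pool.Agent.H57.UGB

open Pool.Agent.H47.KB Pool.Agent.H47.UG

private theorem hq_coeff {R : Type} [CommRing R] (c : R) (s : ℕ) (hs : s ≠ 0) :
    PowerSeries.coeff s (PowerSeries.C c) = 0 := by
  rw [PowerSeries.coeff_C, if_neg hs]

/-- The polynomial `B` at the constant jets of points is a form up to a power of the coordinate `p 0`; no
hypothesis on `B`. -/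
theorem homq_all (n k : ℕ) (B : JR n k) : ∃ (Q : Fam n) (M : ℕ), ∀ (F : Frm n) (p : Vec n), p 0 ≠ 0 →
    eval p (spec Q F) = p 0 ^ M * pt (fun α => F.coeff α) (fun j => PowerSeries.C (p j / p 0)) B := by
  induction B using MvPolynomial.induction_on with
  | C z =>
    refine ⟨C (C z), 0, fun F p _ => ?_⟩
    simp [spec, pt]
  | add P Q hP hQ =>
    obtain ⟨G1, M1, h1⟩ := hP
    obtain ⟨G2, M2, h2⟩ := hQ
    refine ⟨G1 * X 0 ^ M2 + G2 * X 0 ^ M1, M1 + M2, fun F p hp => ?_⟩
    have e1 := h1 F p hp
    have e2 := h2 F p hp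
    have e3 : eval p (spec (G1 * X 0 ^ M2 + G2 * X 0 ^ M1) F) =
        eval p (spec G1 F) * p 0 ^ M2 + eval p (spec G2 F) * p 0 ^ M1 := by
      simp [spec]
    rw [e3, e1, e2, map_add]
    ring
  | mul_X P v hP =>
    obtain ⟨G, M, h⟩ := hP
    rcases v with α | ⟨j, s⟩
    · refine ⟨G * C (X α), M, fun F p hp => ?_⟩
      have e1 := h F p hp
      have e3 : eval p (spec (G * C (X α)) F) = eval p (spec G F) * F.coeff α := by
        simp [spec]
      have e4 : pt (fun α => F.coeff α) (fun j => PowerSeries.C (p j / p 0))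
          (X (Sum.inl α) : JR n k) = F.coeff α := by
        simp [pt]
      rw [e3, e1, map_mul, e4]
      ring
    · by_cases hs : (s : ℕ) = 0
      · refine ⟨G * X j, M + 1, fun F p hp => ?_⟩
        have e1 := h F p hp
        have e3 : eval p (spec (G * X j) F) = eval p (spec G F) * p j := by
          simp [spec]
        have e4 : pt (fun α => F.coeff α) (fun j => PowerSeries.C (p j / p 0))
            (X (Sum.inr (j, s)) : JR n k) = p j / p 0 := by
          simp [pt, hs]
        rw [e3, e1, map_mul, e4, pow_succ]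
        field_simp
      · refine ⟨0, 0, fun F p hp => ?_⟩
        have e4 : pt (fun α => F.coeff α) (fun j => PowerSeries.C (p j / p 0))
            (X (Sum.inr (j, s)) : JR n k) = 0 := by
          simp only [pt, aeval_X, Sum.elim_inr]
          exact hq_coeff _ _ hs
        rw [map_mul, e4]
        simp [spec]

/-- A polynomial in the coefficients as a function on the space of jets. -/
theorem pt_cof {n k : ℕ} {R : Type} [CommRing R] [Algebra ℂ R] (a : (Fin (n + 2) →₀ ℕ) → R)
    (y : Fin (n + 2) → PowerSeries R) (c : Cof n) :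
    pt a y (rename Sum.inl c : JR n k) = aeval a c := by
  unfold pt
  rw [aeval_rename]
  rfl

/-- The vector of coefficients: those of `F` on the antidiagonal of degree `d`, `la` elsewhere. -/
noncomputable def offc (n d : ℕ) (la : (Fin (n + 2) →₀ ℕ) → ℂ) (F : Frm n) : (Fin (n + 2) →₀ ℕ) → ℂ := fun α =>
  open Classical in
  if α ∈ (Finset.univ : Finset (Fin (n + 2))).finsuppAntidiag d then F.coeff α else la α

theorem gen_offc (n d : ℕ) (la : (Fin (n + 2) →₀ ℕ) → ℂ) (F : Frm n) :
    gen n d (offc n d la F) = gen n d fun α => F.coeff α := by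
  unfold gen
  refine Finset.sum_congr rfl fun α hα => ?_
  simp only [offc]
  rw [if_pos hα]

theorem gen_coeff_self (n d : ℕ) (F : Frm n) (hF : F.IsHomogeneous d) :
    gen n d (fun α => F.coeff α) = F := by
  unfold gen
  ext α
  rw [coeff_sum]
  simp only [coeff_monomial]
  rw [Finset.sum_ite_eq']
  split_ifs with h
  · rfl
  · by_contra hne
    apply h
    have h1 := hF (fun h0 => hne h0.symm)
    rw [Finset.mem_finsuppAntidiag]
    refine ⟨?_, Finset.subset_univ _⟩
    rw [← h1, Finsupp.weight_apply, Finsupp.sum_fintype]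
    · simp
    · simp

theorem coeff_gen (n d : ℕ) (a : (Fin (n + 2) →₀ ℕ) → ℂ) (α : Fin (n + 2) →₀ ℕ)
    (hα : α ∈ (Finset.univ : Finset (Fin (n + 2))).finsuppAntidiag d) : coeff α (gen n d a) = a α := by
  unfold gen
  rw [coeff_sum]
  simp only [coeff_monomial]
  rw [Finset.sum_ite_eq', if_pos hα]

theorem gen_offc_self (n d : ℕ) (la : (Fin (n + 2) →₀ ℕ) → ℂ) (F : Frm n) (hF : F.IsHomogeneous d) :
    gen n d (offc n d la F) = F := by
  rw [gen_offc, gen_coeff_self n d F hF]

/-- The vector `a` is the vector of its own form. -/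
theorem offc_gen (n d : ℕ) (a : (Fin (n + 2) →₀ ℕ) → ℂ) : offc n d a (gen n d a) = a := by
  funext α
  simp only [offc]
  split_ifs with h
  · exact coeff_gen n d a α h
  · rfl

theorem isHomogeneous_gen (n d : ℕ) (a : (Fin (n + 2) →₀ ℕ) → ℂ) : (gen n d a).IsHomogeneous d := by
  unfold gen
  refine IsHomogeneous.sum _ _ _ fun α hα => ?_
  refine isHomogeneous_monomial _ ?_
  rw [Finset.mem_finsuppAntidiag] at hα
  rw [← hα.1, Finsupp.degree_eq_sum]

/-- Homogenisation of `B` with the coefficients off the antidiagonal equal to `la`. -/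
theorem homq_off (n d k : ℕ) (la : (Fin (n + 2) →₀ ℕ) → ℂ) (B : JR n k) :
    ∃ (Q : Fam n) (M : ℕ), ∀ (F : Frm n) (p : Vec n), p 0 ≠ 0 →
      eval p (spec Q F) = p 0 ^ M * pt (offc n d la F) (fun j => PowerSeries.C (p j / p 0)) B := by
  classical
  induction B using MvPolynomial.induction_on with
  | C z =>
    refine ⟨C (C z), 0, fun F p _ => ?_⟩
    simp [spec, pt]
  | add P Q hP hQ =>
    obtain ⟨G1, M1, h1⟩ := hP
    obtain ⟨G2, M2, h2⟩ := hQ
    refine ⟨G1 * X 0 ^ M2 + G2 * X 0 ^ M1, M1 + M2, fun F p hp => ?_⟩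
    have e1 := h1 F p hp
    have e2 := h2 F p hp
    have e3 : eval p (spec (G1 * X 0 ^ M2 + G2 * X 0 ^ M1) F) =
        eval p (spec G1 F) * p 0 ^ M2 + eval p (spec G2 F) * p 0 ^ M1 := by
      simp [spec]
    rw [e3, e1, e2, map_add]
    ring
  | mul_X P v hP =>
    obtain ⟨G, M, h⟩ := hP
    rcases v with α | ⟨j, s⟩
    · have e4 : ∀ (F : Frm n) (p : Vec n), pt (offc n d la F) (fun j => PowerSeries.C (p j / p 0))
          (X (Sum.inl α) : JR n k) = offc n d la F α := by
        intro F p
        simp [pt]
      by_cases hα : α ∈ (Finset.univ : Finset (Fin (n + 2))).finsuppAntidiag d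
      · refine ⟨G * C (X α), M, fun F p hp => ?_⟩
        have e1 := h F p hp
        have e3 : eval p (spec (G * C (X α)) F) = eval p (spec G F) * F.coeff α := by
          simp [spec]
        have e5 : offc n d la F α = F.coeff α := by
          simp only [offc]
          rw [if_pos hα]
        rw [e3, e1, map_mul, e4, e5]
        ring
      · refine ⟨G * C (C (la α)), M, fun F p hp => ?_⟩
        have e1 := h F p hp
        have e3 : eval p (spec (G * C (C (la α))) F) = eval p (spec G F) * la α := by
          simp [spec]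
        have e5 : offc n d la F α = la α := by
          simp only [offc]
          rw [if_neg hα]
        rw [e3, e1, map_mul, e4, e5]
        ring
    · by_cases hs : (s : ℕ) = 0
      · refine ⟨G * X j, M + 1, fun F p hp => ?_⟩
        have e1 := h F p hp
        have e3 : eval p (spec (G * X j) F) = eval p (spec G F) * p j := by
          simp [spec]
        have e4 : pt (offc n d la F) (fun j => PowerSeries.C (p j / p 0))
            (X (Sum.inr (j, s)) : JR n k) = p j / p 0 := by
          simp [pt, hs]
        rw [e3, e1, map_mul, e4, pow_succ]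
        field_simp
      · refine ⟨0, 0, fun F p hp => ?_⟩
        have e4 : pt (offc n d la F) (fun j => PowerSeries.C (p j / p 0))
            (X (Sum.inr (j, s)) : JR n k) = 0 := by
          simp only [pt, aeval_X, Sum.elim_inr]
          exact hq_coeff _ _ hs
        rw [map_mul, e4]
        simp [spec]

end Pool.Agent.H57.UGB
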