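import Pool.Agent.H57.UGB.Sp
import Pool.Agent.H67.UGB.Base

/-!
# Homogenisation of a function of the coefficients and the base point
-/

set_option autoImplicit false

open MvPolynomial

namespace Pool.Agent.H57.UGB

open Pool.Agent.H47.KB Pool.Agent.H47.UG

/-- The same for every `B`. -/
theorem homq_sp_all (n d k : ℕ) (B : JR n k) (t : (Fin (n + 2) →₀ ℕ) → ℂ) :
    ∃ (Q : Fam n) (M : ℕ), Q.IsHomogeneous M ∧ ∀ (F : Frm n) (p : Vec n), p 0 ≠ 0 →
      eval p (spec Q F) = p 0 ^ M * pt (sp d t F) (fun j => PowerSeries.C (p j / p 0)) B := by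
  induction B using MvPolynomial.induction_on with
  | C z =>
    refine ⟨C (C z), 0, isHomogeneous_C _ _, fun F p _ => ?_⟩
    simp [spec, pt]
  | add P Q hP hQ =>
    obtain ⟨G1, M1, g1, h1⟩ := hP
    obtain ⟨G2, M2, g2, h2⟩ := hQ
    refine ⟨G1 * X 0 ^ M2 + G2 * X 0 ^ M1, M1 + M2, ?_, fun F p hp => ?_⟩
    · refine IsHomogeneous.add (g1.mul (isHomogeneous_X_pow _ _)) ?_
      rw [add_comm M1 M2]
      exact g2.mul (isHomogeneous_X_pow _ _)
    have e1 := h1 F p hp
    have e2 := h2 F p hp
    have e3 : eval p (spec (G1 * X 0 ^ M2 + G2 * X 0 ^ M1) F) =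
        eval p (spec G1 F) * p 0 ^ M2 + eval p (spec G2 F) * p 0 ^ M1 := by
      simp [spec]
    rw [e3, e1, e2, map_add]
    ring
  | mul_X P v hP =>
    obtain ⟨G, M, g, h⟩ := hP
    rcases v with α | ⟨j, s⟩
    · have e4 : ∀ (F : Frm n) (p : Vec n), pt (sp d t F) (fun j => PowerSeries.C (p j / p 0))
          (X (Sum.inl α) : JR n k) = sp d t F α := by
        intro F p
        simp [pt]
      by_cases hα : α ∈ (Finset.univ : Finset (Fin (n + 2))).finsuppAntidiag d
      · refine ⟨G * C (X α), M, g.mul (isHomogeneous_C _ _), fun F p hp => ?_⟩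
        have e1 := h F p hp
        have e3 : eval p (spec (G * C (X α)) F) = eval p (spec G F) * F.coeff α := by
          simp [spec]
        have e5 : sp d t F α = F.coeff α := by
          unfold sp
          rw [if_pos hα]
        rw [e3, e1, map_mul, e4, e5]
        ring
      · refine ⟨G * C (C (t α)), M, g.mul (isHomogeneous_C _ _), fun F p hp => ?_⟩
        have e1 := h F p hp
        have e3 : eval p (spec (G * C (C (t α))) F) = eval p (spec G F) * t α := by
          simp [spec]
        have e5 : sp d t F α = t α := by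
          unfold sp
          rw [if_neg hα]
        rw [e3, e1, map_mul, e4, e5]
        ring
    · by_cases hs : (s : ℕ) = 0
      · refine ⟨G * X j, M + 1, g.mul (isHomogeneous_X _ _), fun F p hp => ?_⟩
        have e1 := h F p hp
        have e3 : eval p (spec (G * X j) F) = eval p (spec G F) * p j := by
          simp [spec]
        have e4 : pt (sp d t F) (fun j => PowerSeries.C (p j / p 0))
            (X (Sum.inr (j, s)) : JR n k) = p j / p 0 := by
          simp [pt, hs]
        rw [e3, e1, map_mul, e4, pow_succ]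
        field_simp
      · refine ⟨0, 0, isHomogeneous_zero _ _ _, fun F p hp => ?_⟩
        have e4 : pt (sp d t F) (fun j => PowerSeries.C (p j / p 0))
            (X (Sum.inr (j, s)) : JR n k) = 0 := by
          simp only [pt, aeval_X, Sum.elim_inr]
          rw [PowerSeries.coeff_C, if_neg hs]
        rw [map_mul, e4]
        simp [spec]

/-- Functions of the coefficients and the point become forms. -/
theorem homq_sp (n d k : ℕ) (B : JR n k) (hB : Base B) (t : (Fin (n + 2) →₀ ℕ) → ℂ) :
    ∃ (Q : Fam n) (M : ℕ), Q.IsHomogeneous M ∧ ∀ (F : Frm n) (p : Vec n), p 0 ≠ 0 →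
      eval p (spec Q F) = p 0 ^ M * pt (sp d t F) (fun j => PowerSeries.C (p j / p 0)) B := by
  have _ := hB
  exact homq_sp_all n d k B t

end Pool.Agent.H57.UGB
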